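import Pool.Agent.H28.Fol.ClosedDefs
import Pool.Agent.H90.Fol.Psh

set_option autoImplicit false

open Metric Filter Topology

namespace Pool.Agent.H28.Fol

open Pool.Agent.H90.Fol

theorem contDiff_normSq {n : WithTop ℕ∞} : ContDiff ℝ n (fun z : ℂ => ‖z‖ ^ 2) :=
  contDiff_id.norm_sq ℝ

theorem contDiff_prodSq {n : WithTop ℕ∞} : ContDiff ℝ n prodSq := by
  unfold prodSq
  exact ContDiff.norm_sq ℝ (contDiff_fst.mul contDiff_snd)

/-- The Laplacian of `|P|²`, `P` holomorphic. -/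
theorem lap_normSq_comp {P : ℂ → ℂ} {x : ℂ} (hP : ∀ᶠ y in 𝓝 x, DifferentiableAt ℂ P y) :
    lap (fun z => ‖P z‖ ^ 2) x = 4 * ‖deriv P x‖ ^ 2 := by
  have h := lap_comp_hol (φ := fun z : ℂ => ‖z‖ ^ 2) (γ := P) (x := x)
    contDiff_normSq.contDiffAt hP
  rw [h]
  unfold levi
  rw [D2_normSq, D2_normSq]
  have h1 : (deriv P x * (starRingEnd ℂ) (deriv P x)).re = ‖deriv P x‖ ^ 2 := by
    rw [Complex.mul_conj, Complex.ofReal_re, Complex.normSq_eq_norm_sq]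
  have h2 : (Complex.I • deriv P x * (starRingEnd ℂ) (Complex.I • deriv P x)).re =
      ‖deriv P x‖ ^ 2 := by
    rw [Complex.mul_conj, Complex.ofReal_re, Complex.normSq_eq_norm_sq, smul_eq_mul, norm_mul,
      Complex.norm_I, one_mul]
  rw [h1, h2]
  ring

/-- The Levi form of `|z w|²`. -/
theorem levi_prodSq (x ξ : ℂ × ℂ) : levi prodSq x ξ = 4 * ‖ξ.1 * x.2 + x.1 * ξ.2‖ ^ 2 := by
  have hd : ∀ y : ℂ, HasDerivAt (fun ζ : ℂ => x + ζ • ξ) ξ y := by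
    intro y
    have := ((hasDerivAt_id y).smul_const ξ).const_add x
    simpa using this
  have h := lap_comp_hol (φ := prodSq) (γ := fun ζ : ℂ => x + ζ • ξ) (x := 0)
    contDiff_prodSq.contDiffAt (Eventually.of_forall fun y => (hd y).differentiableAt)
  rw [(hd 0).deriv] at h
  simp only [zero_smul, add_zero] at h
  rw [← h]
  have e : (fun ζ : ℂ => prodSq (x + ζ • ξ)) =
      fun ζ : ℂ => ‖(x.1 + ζ * ξ.1) * (x.2 + ζ * ξ.2)‖ ^ 2 := by
    funext ζ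
    simp [prodSq]
  have hP : ∀ y : ℂ, HasDerivAt (fun ζ : ℂ => (x.1 + ζ * ξ.1) * (x.2 + ζ * ξ.2))
      (ξ.1 * (x.2 + y * ξ.2) + (x.1 + y * ξ.1) * ξ.2) y := by
    intro y
    have h1 : HasDerivAt (fun ζ : ℂ => x.1 + ζ * ξ.1) ξ.1 y := by
      simpa using ((hasDerivAt_id y).mul_const ξ.1).const_add x.1
    have h2 : HasDerivAt (fun ζ : ℂ => x.2 + ζ * ξ.2) ξ.2 y := by
      simpa using ((hasDerivAt_id y).mul_const ξ.2).const_add x.2
    exact h1.mul h2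
  rw [e, lap_normSq_comp (Eventually.of_forall fun y => (hP y).differentiableAt), (hP 0).deriv]
  simp

theorem isPSH_prodSq : IsPSH Set.univ (fun x => (prodSq x : EReal)) :=
  isPSH_of_levi isOpen_univ (fun x _ => contDiff_prodSq.contDiffAt) fun x _ ξ => by
    rw [levi_prodSq]
    positivity

/-- `dd^c |z w|²` vanishes only at the origin. -/
theorem nonzeroSet_prodSq : nonzeroSet Set.univ prodSq = {0}ᶜ := by
  ext x
  simp only [nonzeroSet, Set.mem_univ, true_and, Set.mem_ofPred_eq, Set.mem_compl_iff,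
    Set.mem_singleton_iff]
  constructor
  · rintro ⟨ξ, hξ⟩ rfl
    rw [leviForm_eq, levi_prodSq] at hξ
    simp at hξ
  · intro hx
    refine ⟨(starRingEnd ℂ x.2, starRingEnd ℂ x.1), ?_⟩
    rw [leviForm_eq, levi_prodSq]
    have h1 : (starRingEnd ℂ) x.2 * x.2 + x.1 * (starRingEnd ℂ) x.1 =
        ((‖x.2‖ ^ 2 + ‖x.1‖ ^ 2 : ℝ) : ℂ) := by
      rw [mul_comm, Complex.mul_conj, Complex.mul_conj, Complex.normSq_eq_norm_sq,
        Complex.normSq_eq_norm_sq]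
      push_cast
      rfl
    show 4 * ‖(starRingEnd ℂ) x.2 * x.2 + x.1 * (starRingEnd ℂ) x.1‖ ^ 2 ≠ 0
    rw [h1]
    have h2 : 0 < ‖x.2‖ ^ 2 + ‖x.1‖ ^ 2 := by
      by_contra hcon
      have h3 : ‖x.1‖ ^ 2 = 0 := by nlinarith [sq_nonneg ‖x.1‖, sq_nonneg ‖x.2‖]
      have h4 : ‖x.2‖ ^ 2 = 0 := by nlinarith [sq_nonneg ‖x.1‖, sq_nonneg ‖x.2‖]
      apply hx
      ext
      · simpa using h3
      · simpa using h4
    rw [Complex.norm_real, Real.norm_eq_abs, abs_of_pos h2]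
    positivity

theorem suppDDc_prodSq : suppDDc Set.univ prodSq = Set.univ := by
  unfold suppDDc
  rw [nonzeroSet_prodSq, Set.univ_inter]
  exact (dense_compl_singleton (0 : ℂ × ℂ)).closure_eq

/-- The squared euclidean norm. -/
private noncomputable def clN (x : ℂ × ℂ) : ℝ := ‖x.1‖ ^ 2 + ‖x.2‖ ^ 2

private theorem cl_sq_one_add (r : ℂ) : ‖1 + r‖ ^ 2 = 1 + 2 * r.re + ‖r‖ ^ 2 := by
  rw [← Complex.normSq_eq_norm_sq, ← Complex.normSq_eq_norm_sq, Complex.normSq_add]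
  simp
  ring

/-- The barrier on a small disc in the kernel direction. -/
private theorem cl_barrier {v : ℂ × ℂ → EReal} (hv : IsPSH Set.univ v) {x : ℂ × ℂ} {ε m : ℝ}
    (hε : 0 < ε) (hle : ∀ y, ‖y - x‖ ≤ 1 → v y ≤ ((m + prodSq y - ε * clN y : ℝ) : EReal))
    (hx : v x = ((m + prodSq x - ε * clN x : ℝ) : EReal)) : False := by
  by_cases hx0 : x = 0
  · subst hx0
    have h := hv.2.2 0 (1, 0) (fun _ _ => Set.mem_univ _) (fun _ => m - ε) continuousOn_const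
      (fun y _ => ?_) (fun ζ hζ => ?_)
    · rw [hx, EReal.coe_le_coe_iff] at h
      simp [prodSq, clN] at h
      linarith
    · exact InnerProductSpace.harmonicAt_const _
    · refine (hle _ ?_).trans (le_of_eq ?_)
      · simp [Prod.norm_def, hζ]
      · simp [prodSq, clN, hζ]
  · obtain ⟨N, hN⟩ : ∃ N : ℝ, N = clN x := ⟨_, rfl⟩
    obtain ⟨c, hc⟩ : ∃ c : ℝ, c = ‖x.1 * x.2‖ ^ 2 := ⟨_, rfl⟩
    have hc0 : 0 ≤ c := by rw [hc]; positivity
    have hN0 : 0 < N := by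
      rw [hN]
      unfold clN
      by_contra hcon
      have h3 : ‖x.1‖ ^ 2 = 0 := by nlinarith [sq_nonneg ‖x.1‖, sq_nonneg ‖x.2‖]
      have h4 : ‖x.2‖ ^ 2 = 0 := by nlinarith [sq_nonneg ‖x.1‖, sq_nonneg ‖x.2‖]
      apply hx0
      ext
      · simpa using h3
      · simpa using h4
    obtain ⟨ρ, hρ0, hρx, hρ⟩ : ∃ ρ : ℝ, 0 < ρ ∧ ρ * ‖x‖ ≤ 1 ∧
        c * ρ ^ 4 < ε * ρ ^ 2 * N := by
      obtain ⟨ρ, hρ0, hρx, hρ1⟩ : ∃ ρ : ℝ, 0 < ρ ∧ ρ * ‖x‖ ≤ 1 ∧ ρ ^ 2 * (c + 1) ≤ ε * N := by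
        refine ⟨min (1 / (‖x‖ + 1)) (Real.sqrt (ε * N / (c + 1))),
          lt_min (by positivity) (Real.sqrt_pos.2 (by positivity)), ?_, ?_⟩
        · calc min (1 / (‖x‖ + 1)) (Real.sqrt (ε * N / (c + 1))) * ‖x‖
              ≤ 1 / (‖x‖ + 1) * ‖x‖ := mul_le_mul_of_nonneg_right (min_le_left _ _) (norm_nonneg _)
            _ ≤ 1 := by
              rw [div_mul_eq_mul_div, one_mul, div_le_one (by positivity)]
              linarith
        · calc min (1 / (‖x‖ + 1)) (Real.sqrt (ε * N / (c + 1))) ^ 2 * (c + 1)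
              ≤ Real.sqrt (ε * N / (c + 1)) ^ 2 * (c + 1) := by
                refine mul_le_mul_of_nonneg_right ?_ (by positivity)
                exact pow_le_pow_left₀ (le_min (by positivity) (Real.sqrt_nonneg _))
                  (min_le_right _ _) 2
            _ = ε * N := by
              rw [Real.sq_sqrt (by positivity), div_mul_cancel₀ _ (by positivity)]
      refine ⟨ρ, hρ0, hρx, ?_⟩
      have h2 : 0 < ρ ^ 2 := by positivity
      nlinarith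
    -- the harmonic majorant
    obtain ⟨δ, hδ⟩ : ∃ δ : ℝ, δ = ‖x.1‖ ^ 2 - ‖x.2‖ ^ 2 := ⟨_, rfl⟩
    have hharm : ∀ y ∈ ball (0 : ℂ) 1, InnerProductSpace.HarmonicAt
        (fun ζ : ℂ => ((((m + c - ε * N + (c * ρ ^ 4 - ε * ρ ^ 2 * N) : ℝ) : ℂ) -
          2 * (c : ℂ) * (ρ : ℂ) ^ 2 * ζ ^ 2 - 2 * (ε : ℂ) * (ρ : ℂ) * (δ : ℂ) * ζ).re)) y := by
      intro y _
      have hd : Differentiable ℂ (fun ζ : ℂ =>
          (((m + c - ε * N + (c * ρ ^ 4 - ε * ρ ^ 2 * N) : ℝ) : ℂ) -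
          2 * (c : ℂ) * (ρ : ℂ) ^ 2 * ζ ^ 2 - 2 * (ε : ℂ) * (ρ : ℂ) * (δ : ℂ) * ζ)) := by
        fun_prop
      have hcd : ContDiffAt ℝ 2 (fun ζ : ℂ =>
          (((m + c - ε * N + (c * ρ ^ 4 - ε * ρ ^ 2 * N) : ℝ) : ℂ) -
          2 * (c : ℂ) * (ρ : ℂ) ^ 2 * ζ ^ 2 - 2 * (ε : ℂ) * (ρ : ℂ) * (δ : ℂ) * ζ)) y :=
        contDiffAt_hol (Eventually.of_forall fun z => hd z)
      refine (harmonicAt_iff_lap (Complex.reCLM.contDiff.contDiffAt.comp y hcd)).2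
        (Eventually.of_forall fun z => ?_)
      exact lap_re_hol (Eventually.of_forall fun z => hd z)
    have h := hv.2.2 x ((ρ : ℂ) * x.1, -((ρ : ℂ) * x.2)) (fun _ _ => Set.mem_univ _) _
      (by fun_prop) hharm (fun ζ hζ => ?_)
    · rw [hx, EReal.coe_le_coe_iff, ← hN] at h
      have e : prodSq x = c := hc.symm
      rw [e] at h
      simp only [ne_eq, OfNat.ofNat_ne_zero, not_false_eq_true, zero_pow, mul_zero, sub_zero,
        Complex.ofReal_re] at h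
      linarith
    · refine (hle _ ?_).trans ?_
      · have hn : ‖ζ‖ = 1 := hζ
        rw [add_sub_cancel_left, norm_smul, hn, one_mul, Prod.norm_def]
        simp only [norm_neg, norm_mul, Complex.norm_real, Real.norm_eq_abs, abs_of_pos hρ0]
        refine max_le ?_ ?_
        · exact (mul_le_mul_of_nonneg_left (norm_fst_le x) hρ0.le).trans hρx
        · exact (mul_le_mul_of_nonneg_left (norm_snd_le x) hρ0.le).trans hρx
      rw [EReal.coe_le_coe_iff]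
      have e1 : prodSq (x + ζ • ((ρ : ℂ) * x.1, -((ρ : ℂ) * x.2))) =
          c * ‖1 + (-((ρ : ℂ) ^ 2 * ζ ^ 2))‖ ^ 2 := by
        rw [hc, ← mul_pow, ← norm_mul]
        unfold prodSq
        congr 2
        simp only [Prod.fst_add, Prod.smul_mk, smul_eq_mul, Prod.snd_add]
        ring
      have e2 : clN (x + ζ • ((ρ : ℂ) * x.1, -((ρ : ℂ) * x.2))) =
          ‖x.1‖ ^ 2 * ‖1 + (ρ : ℂ) * ζ‖ ^ 2 + ‖x.2‖ ^ 2 * ‖1 + (-((ρ : ℂ) * ζ))‖ ^ 2 := by
        rw [← mul_pow, ← norm_mul, ← mul_pow, ← norm_mul]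
        unfold clN
        congr 3
        · simp only [Prod.fst_add, Prod.smul_mk, smul_eq_mul]
          ring
        · simp only [Prod.snd_add, Prod.smul_mk, smul_eq_mul]
          ring
      have hn : ‖ζ‖ = 1 := hζ
      rw [e1, e2, cl_sq_one_add, cl_sq_one_add, cl_sq_one_add]
      have n1 : ‖-((ρ : ℂ) ^ 2 * ζ ^ 2)‖ ^ 2 = ρ ^ 4 := by
        rw [norm_neg, norm_mul, norm_pow, norm_pow, hn, Complex.norm_real, Real.norm_eq_abs,
          abs_of_pos hρ0]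
        ring
      have n2 : ‖(ρ : ℂ) * ζ‖ ^ 2 = ρ ^ 2 := by
        rw [norm_mul, hn, Complex.norm_real, Real.norm_eq_abs, abs_of_pos hρ0]
        ring
      have n3 : ‖-((ρ : ℂ) * ζ)‖ ^ 2 = ρ ^ 2 := by rw [norm_neg, n2]
      rw [n1, n2, n3]
      have r1 : (-((ρ : ℂ) ^ 2 * ζ ^ 2)).re = -(ρ ^ 2 * (ζ ^ 2).re) := by
        rw [Complex.neg_re, ← Complex.ofReal_pow, Complex.re_ofReal_mul]
      have r2 : ((ρ : ℂ) * ζ).re = ρ * ζ.re := Complex.re_ofReal_mul _ _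
      have r3 : (-((ρ : ℂ) * ζ)).re = -(ρ * ζ.re) := by rw [Complex.neg_re, r2]
      rw [r1, r2, r3]
      have r4 : ((((m + c - ε * N + (c * ρ ^ 4 - ε * ρ ^ 2 * N) : ℝ) : ℂ) -
          2 * (c : ℂ) * (ρ : ℂ) ^ 2 * ζ ^ 2 - 2 * (ε : ℂ) * (ρ : ℂ) * (δ : ℂ) * ζ).re) =
          m + c - ε * N + (c * ρ ^ 4 - ε * ρ ^ 2 * N) - 2 * c * ρ ^ 2 * (ζ ^ 2).re -
            2 * ε * ρ * δ * ζ.re := by
        have q1 : 2 * (c : ℂ) * (ρ : ℂ) ^ 2 * ζ ^ 2 = ((2 * c * ρ ^ 2 : ℝ) : ℂ) * ζ ^ 2 := by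
          push_cast; ring
        have q2 : 2 * (ε : ℂ) * (ρ : ℂ) * (δ : ℂ) * ζ = ((2 * ε * ρ * δ : ℝ) : ℂ) * ζ := by
          push_cast; ring
        rw [q1, q2, Complex.sub_re, Complex.sub_re, Complex.ofReal_re, Complex.re_ofReal_mul,
          Complex.re_ofReal_mul]
      rw [r4, hN]
      unfold clN
      rw [hδ]
      apply le_of_eq
      ring

/-- `|z w|²` is maximal plurisubharmonic on `ℂ²`. -/
theorem isMaximalPSH_prodSq : IsMaximalPSH Set.univ prodSq := by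
  refine ⟨isPSH_prodSq, ?_⟩
  rintro v hv ⟨K, -, hK, hvK⟩ x0 -
  by_contra hcon
  push Not at hcon
  -- a positive gap
  obtain ⟨s, hs0, hs⟩ : ∃ s : ℝ, 0 < s ∧ ((prodSq x0 + s : ℝ) : EReal) ≤ v x0 := by
    obtain ⟨q, hq1, hq2⟩ := EReal.lt_iff_exists_real_btwn.1 hcon
    refine ⟨q - prodSq x0, sub_pos.2 (EReal.coe_lt_coe_iff.1 hq1), ?_⟩
    rw [add_sub_cancel]
    exact hq2.le
  have hclN : Continuous clN := by unfold clN; fun_prop
  have hprod : Continuous prodSq := (contDiff_prodSq (n := 0)).continuous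
  obtain ⟨R, hR⟩ := (hK.isBounded.union (Bornology.isBounded_singleton (x := x0))).subset_closedBall
    (0 : ℂ × ℂ)
  have hx0R : x0 ∈ closedBall (0 : ℂ × ℂ) R := hR (Or.inr rfl)
  have hR0 : 0 ≤ R := nonempty_closedBall.1 ⟨x0, hx0R⟩
  obtain ⟨ε, hε0, hε⟩ : ∃ ε : ℝ, 0 < ε ∧ ε * (2 * (R + 1) ^ 2) < s := by
    refine ⟨s / (2 * (R + 1) ^ 2 + 1), by positivity, ?_⟩
    rw [div_mul_eq_mul_div, div_lt_iff₀ (by positivity)]
    nlinarith
  obtain ⟨r, hr⟩ : ∃ r : ℂ × ℂ → ℝ, r = fun y => -prodSq y + ε * clN y := ⟨_, rfl⟩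
  have hrc : Continuous r := by rw [hr]; fun_prop
  have husc : UpperSemicontinuousOn (fun y => v y + ((r y : ℝ) : EReal))
      (closedBall (0 : ℂ × ℂ) (R + 1)) := by
    have h1 : UpperSemicontinuousOn (fun y => ((r y : ℝ) : EReal)) (Set.univ : Set (ℂ × ℂ)) :=
      (continuous_coe_real_ereal.comp hrc).continuousOn.upperSemicontinuousOn
    refine (UpperSemicontinuousOn.add' hv.1 h1 fun y hy => ?_).mono (Set.subset_univ _)
    exact EReal.continuousAt_add (Or.inl (hv.2.1 y hy).ne) (Or.inr (EReal.coe_ne_top _))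
  obtain ⟨x1, hx1B, hmax⟩ := husc.exists_isMaxOn
    ⟨x0, closedBall_subset_closedBall (by linarith) hx0R⟩ (isCompact_closedBall 0 (R + 1))
  have hge : ((s : ℝ) : EReal) ≤ v x1 + ((r x1 : ℝ) : EReal) := by
    refine le_trans ?_ (hmax (closedBall_subset_closedBall (by linarith) hx0R))
    refine le_trans ?_ (add_le_add_left hs _)
    rw [← EReal.coe_add, EReal.coe_le_coe_iff, hr]
    have : 0 ≤ clN x0 := by unfold clN; positivity
    have h2 : 0 ≤ ε * clN x0 := by positivity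
    simp only
    linarith
  have hv1 : v x1 ≠ ⊤ := (hv.2.1 x1 (Set.mem_univ _)).ne
  have hv2 : v x1 ≠ ⊥ := by
    intro h
    rw [h, EReal.bot_add] at hge
    exact absurd hge (not_le.2 (EReal.bot_lt_coe s))
  obtain ⟨a, ha⟩ : ∃ a : ℝ, v x1 = (a : EReal) := ⟨(v x1).toReal, (EReal.coe_toReal hv1 hv2).symm⟩
  rw [ha, ← EReal.coe_add, EReal.coe_le_coe_iff] at hge
  have hx1K : x1 ∈ K := by
    by_contra hx1K
    have h1 := hvK x1 ⟨Set.mem_univ _, hx1K⟩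
    rw [ha, EReal.coe_le_coe_iff] at h1
    have h2 : clN x1 ≤ 2 * (R + 1) ^ 2 := by
      have h3 : ‖x1‖ ≤ R + 1 := mem_closedBall_zero_iff.1 hx1B
      have h4 := (norm_fst_le x1).trans h3
      have h5 := (norm_snd_le x1).trans h3
      have h6 : ‖x1.1‖ ^ 2 ≤ (R + 1) ^ 2 := pow_le_pow_left₀ (norm_nonneg _) h4 2
      have h7 : ‖x1.2‖ ^ 2 ≤ (R + 1) ^ 2 := pow_le_pow_left₀ (norm_nonneg _) h5 2
      unfold clN
      linarith
    have h3 : ε * clN x1 ≤ ε * (2 * (R + 1) ^ 2) := mul_le_mul_of_nonneg_left h2 hε0.le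
    rw [hr] at hge
    simp only at hge
    linarith
  have hx1R : ‖x1‖ ≤ R := mem_closedBall_zero_iff.1 (hR (Or.inl hx1K))
  refine cl_barrier hv (x := x1) (ε := ε) (m := a + r x1) hε0 (fun y hy => ?_) ?_
  · have hyB : y ∈ closedBall (0 : ℂ × ℂ) (R + 1) := by
      rw [mem_closedBall_zero_iff]
      calc ‖y‖ = ‖x1 + (y - x1)‖ := by rw [add_sub_cancel]
        _ ≤ ‖x1‖ + ‖y - x1‖ := norm_add_le _ _
        _ ≤ R + 1 := by linarith
    have h1 : v y + ((r y : ℝ) : EReal) ≤ v x1 + ((r x1 : ℝ) : EReal) := hmax hyB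
    rw [ha, ← EReal.coe_add] at h1
    have hvy : v y ≠ ⊤ := (hv.2.1 y (Set.mem_univ _)).ne
    rcases eq_or_ne (v y) ⊥ with h2 | h2
    · rw [h2]
      exact bot_le
    · obtain ⟨b, hb⟩ : ∃ b : ℝ, v y = (b : EReal) := ⟨(v y).toReal, (EReal.coe_toReal hvy h2).symm⟩
      rw [hb, ← EReal.coe_add, EReal.coe_le_coe_iff] at h1
      rw [hb, EReal.coe_le_coe_iff]
      rw [hr] at h1 ⊢
      simp only at h1 ⊢
      linarith
  · rw [ha, EReal.coe_eq_coe_iff, hr]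
    simp only
    ring

/-! ### No foliation and no lamination near the origin -/

/-- A holomorphic disc on which `|z w|²` is harmonic lies in a fibre of `z w`. -/
theorem prod_const_of_harmonic {g : ℂ → ℂ × ℂ}
    (hg : ∀ z ∈ ball (0 : ℂ) 1, DifferentiableAt ℂ g z)
    (hh : InnerProductSpace.HarmonicOnNhd (fun z => prodSq (g z)) (ball 0 1)) {z0 : ℂ}
    (hz0 : z0 ∈ ball (0 : ℂ) 1) (h0 : (g z0).1 * (g z0).2 = 0) :
    (∀ z ∈ ball (0 : ℂ) 1, (g z).1 = 0) ∨ (∀ z ∈ ball (0 : ℂ) 1, (g z).2 = 0) := by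
  have hd1 : ∀ z ∈ ball (0 : ℂ) 1, DifferentiableAt ℂ (fun y => (g y).1) z := fun z hz =>
    (hg z hz).fst
  have hd2 : ∀ z ∈ ball (0 : ℂ) 1, DifferentiableAt ℂ (fun y => (g y).2) z := fun z hz =>
    (hg z hz).snd
  have hdP : ∀ z ∈ ball (0 : ℂ) 1, DifferentiableAt ℂ (fun y => (g y).1 * (g y).2) z :=
    fun z hz => (hd1 z hz).mul (hd2 z hz)
  have hev : ∀ z ∈ ball (0 : ℂ) 1, ∀ᶠ y in 𝓝 z,
      DifferentiableAt ℂ (fun y => (g y).1 * (g y).2) y := fun z hz => by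
    filter_upwards [isOpen_ball.mem_nhds hz] with y hy
    exact hdP y hy
  have hder : ∀ z ∈ ball (0 : ℂ) 1, deriv (fun y => (g y).1 * (g y).2) z = 0 := by
    intro z hz
    have h1 := lap_normSq_comp (hev z hz)
    have hcd : ContDiffAt ℝ 2 (fun y => prodSq (g y)) z := by
      have h3 : ContDiffAt ℝ 2 (fun y : ℂ => ‖(g y).1 * (g y).2‖ ^ 2) z :=
        (contDiff_normSq.contDiffAt).comp z (contDiffAt_hol (hev z hz))
      exact h3
    have h2 := ((harmonicAt_iff_lap hcd).1 (hh z hz)).self_of_nhds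
    have e : (fun y => prodSq (g y)) = fun y => ‖(g y).1 * (g y).2‖ ^ 2 := rfl
    rw [e, h1] at h2
    have h3 : ‖deriv (fun y => (g y).1 * (g y).2) z‖ ^ 2 = 0 := by linarith
    exact norm_eq_zero.1 (pow_eq_zero_iff (two_ne_zero)|>.1 h3)
  have hconst : ∀ z ∈ ball (0 : ℂ) 1, (g z).1 * (g z).2 = 0 := by
    intro z hz
    rw [← h0]
    exact isOpen_ball.is_const_of_deriv_eq_zero (convex_ball (0 : ℂ) 1).isPreconnected
      (fun y hy => (hdP y hy).differentiableWithinAt) (fun y hy => hder y hy) hz hz0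
  exact AnalyticOnNhd.eq_zero_or_eq_zero_of_mul_eq_zero
    (DifferentiableOn.analyticOnNhd (fun y hy => (hd1 y hy).differentiableWithinAt) isOpen_ball)
    (DifferentiableOn.analyticOnNhd (fun y hy => (hd2 y hy).differentiableWithinAt) isOpen_ball)
    hconst (convex_ball (0 : ℂ) 1).isPreconnected

/-- The core: a chart near the origin is impossible. -/
theorem no_chart {T : Type*} [TopologicalSpace T] (f : ℂ × T → ℂ × ℂ)
    (hcont : ∀ z ∈ ball (0 : ℂ) 1, ∀ t, Tendsto (fun s => f (z, s)) (𝓝 t) (𝓝 (f (z, t))))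
    (hhol : ∀ z ∈ ball (0 : ℂ) 1, ∀ t, DifferentiableAt ℂ (fun y => f (y, t)) z ∧
      deriv (fun y => f (y, t)) z ≠ 0)
    (hharm : ∀ t, InnerProductSpace.HarmonicOnNhd (fun z => prodSq (f (z, t))) (ball 0 1))
    {z0 : ℂ} (hz0 : z0 ∈ ball (0 : ℂ) 1) {t0 : T} (h0 : f (z0, t0) = 0)
    (hopen : ∀ W ∈ 𝓝 t0, ∀ᶠ q in 𝓝 (0 : ℂ × ℂ), ∃ z ∈ ball (0 : ℂ) 1, ∃ t ∈ W, f (z, t) = q) :
    False := by
  -- a point of the plaque through the origin different from the origin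
  obtain ⟨z1, hz1, hz1'⟩ : ∃ z1 ∈ ball (0 : ℂ) 1, f (z1, t0) ≠ 0 := by
    by_contra hcon
    push Not at hcon
    apply (hhol z0 hz0 t0).2
    have h1 : (fun y => f (y, t0)) =ᶠ[𝓝 z0] fun _ => (0 : ℂ × ℂ) := by
      filter_upwards [isOpen_ball.mem_nhds hz0] with y hy
      exact hcon y hy
    rw [h1.deriv_eq]
    simp
  have key : ∀ t, ∀ z ∈ ball (0 : ℂ) 1, (f (z, t)).1 * (f (z, t)).2 = 0 →
      (∀ z ∈ ball (0 : ℂ) 1, (f (z, t)).1 = 0) ∨ (∀ z ∈ ball (0 : ℂ) 1, (f (z, t)).2 = 0) :=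
    fun t z hz h => prod_const_of_harmonic (fun y hy => (hhol y hy t).1) (hharm t) hz h
  have hcase : (f (z1, t0)).1 ≠ 0 ∨ (f (z1, t0)).2 ≠ 0 := by
    by_contra hcon
    push Not at hcon
    exact hz1' (Prod.ext hcon.1 hcon.2)
  have hsmall1 : Tendsto (fun w : ℂ => ((0 : ℂ), w)) (𝓝[≠] 0) (𝓝 (0 : ℂ × ℂ)) := by
    have : Tendsto (fun w : ℂ => ((0 : ℂ), w)) (𝓝 0) (𝓝 ((0 : ℂ), (0 : ℂ))) :=
      (Continuous.tendsto (by fun_prop) 0)
    exact this.mono_left nhdsWithin_le_nhds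
  have hsmall2 : Tendsto (fun w : ℂ => (w, (0 : ℂ))) (𝓝[≠] 0) (𝓝 (0 : ℂ × ℂ)) := by
    have : Tendsto (fun w : ℂ => (w, (0 : ℂ))) (𝓝 0) (𝓝 ((0 : ℂ), (0 : ℂ))) :=
      (Continuous.tendsto (by fun_prop) 0)
    exact this.mono_left nhdsWithin_le_nhds
  rcases hcase with h1 | h1
  · have hW : {t | (f (z1, t)).1 ≠ 0} ∈ 𝓝 t0 :=
      ((continuous_fst.tendsto _).comp (hcont z1 hz1 t0)).eventually_ne h1
    obtain ⟨w, ⟨z, hz, t, ht, hzt⟩, hw⟩ :=
      ((hsmall1.eventually (hopen _ hW)).and self_mem_nhdsWithin).exists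
    rcases key t z hz (by rw [hzt]; simp) with h2 | h2
    · exact ht (h2 z1 hz1)
    · have h3 := h2 z hz
      rw [hzt] at h3
      exact hw h3
  · have hW : {t | (f (z1, t)).2 ≠ 0} ∈ 𝓝 t0 :=
      ((continuous_snd.tendsto _).comp (hcont z1 hz1 t0)).eventually_ne h1
    obtain ⟨w, ⟨z, hz, t, ht, hzt⟩, hw⟩ :=
      ((hsmall2.eventually (hopen _ hW)).and self_mem_nhdsWithin).exists
    rcases key t z hz (by rw [hzt]; simp) with h2 | h2
    · have h3 := h2 z hz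
      rw [hzt] at h3
      exact hw h3
    · exact ht (h2 z1 hz1)

theorem no_foliation {U : Set (ℂ × ℂ)} (h0 : (0 : ℂ × ℂ) ∈ U) (F : HolFoliation U)
    (hF : F.HarmonicAlong prodSq) : False := by
  obtain ⟨Φ, hΦ, h0Φ⟩ := F.cover 0 h0
  have hsrc := F.source_eq Φ hΦ
  have hmem : Φ.symm 0 ∈ Φ.source := Φ.map_target h0Φ
  have hmem' := hmem
  rw [hsrc] at hmem'
  have hcontAt : ∀ z ∈ ball (0 : ℂ) 1, ∀ t : ball (0 : ℂ) 1,
      ContinuousAt Φ (z, (t : ℂ)) := fun z hz t => by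
    refine Φ.continuousAt ?_
    rw [hsrc]
    exact ⟨hz, t.2⟩
  refine no_chart (T := ball (0 : ℂ) 1) (fun p => Φ (p.1, (p.2 : ℂ))) (fun z hz t => ?_)
    (fun z hz t => F.holomorphic Φ hΦ z hz t t.2) (fun t => hF Φ hΦ t t.2)
    (z0 := (Φ.symm 0).1) hmem'.1 (t0 := ⟨(Φ.symm 0).2, hmem'.2⟩) ?_ fun W hW => ?_
  · have h1 : Tendsto (fun s : ball (0 : ℂ) 1 => (z, (s : ℂ))) (𝓝 t) (𝓝 (z, (t : ℂ))) :=
      Continuous.tendsto (by fun_prop) t
    exact (hcontAt z hz t).tendsto.comp h1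
  · exact Φ.right_inv h0Φ
  · have h1 : Tendsto Φ.symm (𝓝 0) (𝓝 (Φ.symm 0)) := (Φ.symm.continuousAt h0Φ).tendsto
    obtain ⟨W', hW', hWW'⟩ := mem_nhds_induced _ _ W |>.1 (by
      simpa [nhds_induced] using hW : W ∈ 𝓝 (⟨(Φ.symm 0).2, hmem'.2⟩ : ball (0 : ℂ) 1)) |> fun h => h
    have h2 : ∀ᶠ q in 𝓝 (0 : ℂ × ℂ), (Φ.symm q).2 ∈ W' :=
      ((continuous_snd.tendsto _).comp h1) hW'
    have h3 : ∀ᶠ q in 𝓝 (0 : ℂ × ℂ), q ∈ Φ.target := Φ.open_target.mem_nhds h0Φ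
    filter_upwards [h2, h3] with q hq2 hq3
    have h4 := Φ.map_target hq3
    rw [hsrc] at h4
    exact ⟨(Φ.symm q).1, h4.1, ⟨(Φ.symm q).2, h4.2⟩, hWW' hq2, Φ.right_inv hq3⟩

theorem no_lamination {S : Set (ℂ × ℂ)} (h0 : S ∈ 𝓝 (0 : ℂ × ℂ)) (L : HolLamination S)
    (hL : L.HarmonicAlong prodSq) : False := by
  obtain ⟨i, z0, hz0, t0, hzt⟩ := L.cover 0 (mem_of_mem_nhds h0)
  letI := L.topology i
  have hemb := L.isOpenEmbedding i
  refine no_chart (L.chart i) (fun z hz t => ?_) (L.holomorphic i) (hL i) hz0 hzt fun W hW => ?_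
  · have h1 : Continuous fun s : L.Transversal i => (((⟨z, hz⟩ : ball (0 : ℂ) 1), s) :
        ball (0 : ℂ) 1 × L.Transversal i) := by fun_prop
    have h2 := (continuous_subtype_val.comp (hemb.continuous.comp h1)).tendsto t
    exact h2
  · have hN : (Set.univ ×ˢ W : Set (ball (0 : ℂ) 1 × L.Transversal i)) ∈
        𝓝 ((⟨z0, hz0⟩ : ball (0 : ℂ) 1), t0) := prod_mem_nhds univ_mem hW
    have h1 := hemb.isOpenMap.image_mem_nhds hN
    have h2 : (⟨L.chart i (z0, t0), L.mem i z0 hz0 t0⟩ : S) = ⟨0, mem_of_mem_nhds h0⟩ :=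
      Subtype.ext hzt
    rw [h2] at h1
    rw [nhds_subtype, mem_comap] at h1
    obtain ⟨A, hA, hA'⟩ := h1
    filter_upwards [hA, h0] with q hq hqS
    obtain ⟨⟨z, t⟩, ⟨-, ht⟩, hzt'⟩ := hA' (show (⟨q, hqS⟩ : S) ∈ _ from hq)
    exact ⟨z, z.2, t, ht, congrArg Subtype.val hzt'⟩

end Pool.Agent.H28.Fol
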