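import Pool.Agent.H90.Fol.Defs

set_option autoImplicit false

open Metric Filter Topology

namespace Pool.Agent.H28.Fol

open Pool.Agent.H90.Fol

/-- The smooth function `|z w|²` on `ℂ²`. -/
noncomputable def prodSq (x : ℂ × ℂ) : ℝ := ‖x.1 * x.2‖ ^ 2

/-- The support of `dd^c φ` in `Ω`: the closure in `Ω` of the set of the points at which the complex
Hessian of `φ` is nonzero. -/
def suppDDc (Ω : Set (ℂ × ℂ)) (φ : ℂ × ℂ → ℝ) : Set (ℂ × ℂ) := Ω ∩ closure (nonzeroSet Ω φ)

universe u

/-- A lamination of a subset `S` of `ℂ²` by holomorphic discs: a family of charts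
`D × T → S`, `D` the unit disc and `T` an arbitrary topological space, which are homeomorphisms onto
relatively open subsets of `S` that cover `S`. For every chart and every `t` the plaque
`z ↦ chart (z, t)` is a holomorphic disc with nowhere vanishing derivative, and plaques that meet
coincide near the common point. -/
structure HolLamination (S : Set (ℂ × ℂ)) where
  /-- index set of the charts -/
  Index : Type u
  /-- the transversal of a chart -/
  Transversal : Index → Type u
  /-- the topology of the transversal -/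
  topology : ∀ i, TopologicalSpace (Transversal i)
  /-- the chart; only its values on `D × T` matter -/
  chart : ∀ i, ℂ × Transversal i → ℂ × ℂ
  mem : ∀ i, ∀ z ∈ ball (0 : ℂ) 1, ∀ t, chart i (z, t) ∈ S
  isOpenEmbedding : ∀ i, IsOpenEmbedding
    (fun p : ball (0 : ℂ) 1 × Transversal i => (⟨chart i (p.1, p.2), mem i p.1 p.1.2 p.2⟩ : S))
  cover : ∀ q ∈ S, ∃ i, ∃ z ∈ ball (0 : ℂ) 1, ∃ t, chart i (z, t) = q
  holomorphic : ∀ i, ∀ z ∈ ball (0 : ℂ) 1, ∀ t,
    DifferentiableAt ℂ (fun y => chart i (y, t)) z ∧ deriv (fun y => chart i (y, t)) z ≠ 0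
  compatible : ∀ i j, ∀ z ∈ ball (0 : ℂ) 1, ∀ t, ∀ z' ∈ ball (0 : ℂ) 1, ∀ t',
    chart i (z, t) = chart j (z', t') →
      ∀ᶠ y in 𝓝 z, ∃ y' ∈ ball (0 : ℂ) 1, chart i (y, t) = chart j (y', t')

/-- The function `φ` is harmonic along all leaves of the lamination. -/
def HolLamination.HarmonicAlong {S : Set (ℂ × ℂ)} (L : HolLamination S) (φ : ℂ × ℂ → ℝ) : Prop :=
  ∀ i, ∀ t, InnerProductSpace.HarmonicOnNhd (fun z => φ (L.chart i (z, t))) (ball 0 1)

end Pool.Agent.H28.Fol
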